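import Mathlib

/-!
# Log schemes (log structures on the Zariski site)

Basic definitions: sheaves of commutative monoids on a scheme, log schemes, morphisms of log
schemes, the category of log schemes.
-/

open CategoryTheory AlgebraicGeometry Opposite TopologicalSpace

namespace Pool.LogT

/-- An fs (fine and saturated) monoid: finitely generated, integral (cancellative) and saturated
(if `a ^ n` is divisible by `b ^ n` with `n > 0` then `a` is divisible by `b`). -/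
structure IsFs (P : Type) [CommMonoid P] : Prop where
  fg : Monoid.FG P
  cancel : ∀ a b c : P, a * b = a * c → b = c
  sat : ∀ (a b c : P) (n : ℕ), 0 < n → a ^ n = b ^ n * c → ∃ d, a = b * d

/-- A sheaf of commutative monoids on (the Zariski site of) a scheme. -/
structure MonSheaf (X : Scheme.{0}) where
  /-- the sections -/
  sec : X.Opens → Type
  [mon : ∀ U, CommMonoid (sec U)]
  /-- the restriction maps -/
  res : ∀ {U V : X.Opens}, V ≤ U → (sec U →* sec V)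
  res_self : ∀ (U : X.Opens) (m : sec U), res (le_refl U) m = m
  res_res : ∀ {U V W : X.Opens} (h : V ≤ U) (h' : W ≤ V) (m : sec U),
    res h' (res h m) = res (h'.trans h) m
  glue : ∀ {ι : Type} (U : X.Opens) (V : ι → X.Opens) (hV : ∀ i, V i ≤ U), U ≤ ⨆ i, V i →
    ∀ m : ∀ i, sec (V i),
      (∀ i j, res (inf_le_left : V i ⊓ V j ≤ V i) (m i) =
        res (inf_le_right : V i ⊓ V j ≤ V j) (m j)) →
      ∃! t : sec U, ∀ i, res (hV i) t = m i

attribute [instance] MonSheaf.mon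

/-- A log scheme (with a log structure on the Zariski site): a scheme `X`, a sheaf of monoids `M`
and a multiplicative homomorphism `α : M → 𝒪_X` inducing a bijection `α⁻¹(𝒪_X^×) → 𝒪_X^×`. -/
structure LogScheme where
  /-- the underlying scheme -/
  X : Scheme.{0}
  /-- the sheaf of monoids -/
  M : MonSheaf X
  /-- the structure homomorphism -/
  α : ∀ U : X.Opens, M.sec U →* Γ(X, U)
  α_res : ∀ {U V : X.Opens} (h : V ≤ U) (m : M.sec U),
    α V (M.res h m) = X.presheaf.map (homOfLE h).op (α U m)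
  unit : ∀ (U : X.Opens) (u : Γ(X, U)), IsUnit u → ∃! m : M.sec U, α U m = u

/-- Morphisms of log schemes: a morphism of schemes `f : X → Y` with a compatible homomorphism
`M_Y → f_* M_X`, given as a family `M_Y(V) → M_X(U)` for `U ≤ f⁻¹ V`. -/
structure LogScheme.Hom (X Y : LogScheme) where
  /-- the underlying morphism of schemes -/
  f : X.X ⟶ Y.X
  /-- the homomorphism of sheaves of monoids -/
  φ : ∀ (V : Y.X.Opens) (U : X.X.Opens), U ≤ f ⁻¹ᵁ V → (Y.M.sec V →* X.M.sec U)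
  φ_res_left : ∀ (V : Y.X.Opens) (U U' : X.X.Opens) (h : U ≤ f ⁻¹ᵁ V) (h' : U' ≤ U)
    (m : Y.M.sec V), X.M.res h' (φ V U h m) = φ V U' (h'.trans h) m
  φ_res_right : ∀ (V V' : Y.X.Opens) (U : X.X.Opens) (hV : V' ≤ V) (h : U ≤ f ⁻¹ᵁ V')
    (m : Y.M.sec V), φ V' U h (Y.M.res hV m) = φ V U (h.trans (f.preimage_mono hV)) m
  φ_α : ∀ (V : Y.X.Opens) (U : X.X.Opens) (h : U ≤ f ⁻¹ᵁ V) (m : Y.M.sec V),
    X.α U (φ V U h m) = f.appLE V U h (Y.α V m)

namespace LogScheme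

variable {X Y Z W : LogScheme}

theorem Hom.ext' {a b : Hom X Y} (hf : a.f = b.f)
    (hφ : ∀ (V : Y.X.Opens) (U : X.X.Opens) (h : U ≤ a.f ⁻¹ᵁ V) (h' : U ≤ b.f ⁻¹ᵁ V)
      (m : Y.M.sec V), a.φ V U h m = b.φ V U h' m) : a = b := by
  obtain ⟨f, φ, h1, h2, h3⟩ := a
  obtain ⟨f', φ', h1', h2', h3'⟩ := b
  dsimp at hf hφ
  subst hf
  have : φ = φ' := by
    funext V U h
    ext m
    exact hφ V U h h m
  subst this
  rfl

/-- The identity. -/
def Hom.id (X : LogScheme) : Hom X X where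
  f := 𝟙 X.X
  φ V U h := X.M.res (show U ≤ V from h)
  φ_res_left V U U' h h' m := X.M.res_res _ _ m
  φ_res_right V V' U hV h m := X.M.res_res _ _ m
  φ_α V U h m := by
    refine (X.α_res (show U ≤ V from h) m).trans ?_
    have : (𝟙 X.X : X.X ⟶ X.X).appLE V U h = X.X.presheaf.map (homOfLE (show U ≤ V from h)).op := by
      simp only [Scheme.Hom.appLE, Scheme.Hom.id_app]
      exact Category.id_comp _
    rw [this]

/-- Composition. -/
def Hom.comp (a : Hom X Y) (b : Hom Y Z) : Hom X Z where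
  f := a.f ≫ b.f
  φ W U h := (a.φ (b.f ⁻¹ᵁ W) U (show U ≤ a.f ⁻¹ᵁ (b.f ⁻¹ᵁ W) from h)).comp
    (b.φ W (b.f ⁻¹ᵁ W) le_rfl)
  φ_res_left W U U' h h' m := a.φ_res_left _ _ _ _ _ _
  φ_res_right W W' U hV h m := by
    change a.φ (b.f ⁻¹ᵁ W') U _ (b.φ W' (b.f ⁻¹ᵁ W') le_rfl (Z.M.res hV m)) =
      a.φ (b.f ⁻¹ᵁ W) U _ (b.φ W (b.f ⁻¹ᵁ W) le_rfl m)
    have e1 := b.φ_res_right W W' (b.f ⁻¹ᵁ W') hV le_rfl m
    have e2 := b.φ_res_left W (b.f ⁻¹ᵁ W) (b.f ⁻¹ᵁ W') le_rfl (b.f.preimage_mono hV) m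
    have e3 := a.φ_res_right (b.f ⁻¹ᵁ W) (b.f ⁻¹ᵁ W') U (b.f.preimage_mono hV) h
      (b.φ W (b.f ⁻¹ᵁ W) le_rfl m)
    rw [e1, ← e2, e3]
  φ_α W U h m := by
    change X.α U (a.φ (b.f ⁻¹ᵁ W) U _ (b.φ W (b.f ⁻¹ᵁ W) le_rfl m)) = _
    rw [a.φ_α, b.φ_α]
    have : b.f.appLE W (b.f ⁻¹ᵁ W) le_rfl ≫ a.f.appLE (b.f ⁻¹ᵁ W) U h =
        (a.f ≫ b.f).appLE W U h := Scheme.Hom.appLE_comp_appLE _ _ _ _ _ _ _
    rw [← this]
    rfl

instance : Category LogScheme where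
  Hom := Hom
  id := Hom.id
  comp := Hom.comp
  id_comp {X Y} a := Hom.ext' (Category.id_comp _) (fun V U h h' m => by
    change X.M.res _ (a.φ V _ _ m) = _
    exact a.φ_res_left _ _ _ _ _ _)
  comp_id {X Y} a := Hom.ext' (Category.comp_id _) (fun V U h h' m => by
    change a.φ _ U _ (Y.M.res _ m) = _
    exact a.φ_res_right _ _ _ _ _ _)
  assoc {X Y Z W} a b c := Hom.ext' (Category.assoc _ _ _) (fun V U h h' m => rfl)

theorem hom_ext {a b : X ⟶ Y} (hf : a.f = b.f)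
    (hφ : ∀ (V : Y.X.Opens) (U : X.X.Opens) (h : U ≤ a.f ⁻¹ᵁ V) (h' : U ≤ b.f ⁻¹ᵁ V)
      (m : Y.M.sec V), a.φ V U h m = b.φ V U h' m) : a = b :=
  Hom.ext' hf hφ

@[simp] theorem id_f (X : LogScheme) : (𝟙 X : X ⟶ X).f = 𝟙 X.X := rfl

@[simp] theorem comp_f (a : X ⟶ Y) (b : Y ⟶ Z) : (a ≫ b).f = a.f ≫ b.f := rfl

theorem id_φ (X : LogScheme) (V U : X.X.Opens) (h : U ≤ (𝟙 X : X ⟶ X).f ⁻¹ᵁ V) (m : X.M.sec V) :
    (𝟙 X : X ⟶ X).φ V U h m = X.M.res (show U ≤ V from h) m := rfl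

theorem comp_φ (a : X ⟶ Y) (b : Y ⟶ Z) (V : Z.X.Opens) (U : X.X.Opens)
    (h : U ≤ (a ≫ b).f ⁻¹ᵁ V) (m : Z.M.sec V) :
    (a ≫ b).φ V U h m = a.φ (b.f ⁻¹ᵁ V) U (show U ≤ a.f ⁻¹ᵁ (b.f ⁻¹ᵁ V) from h)
      (b.φ V (b.f ⁻¹ᵁ V) le_rfl m) := rfl

/-- The section of `M` with a given unit as image in `𝒪`. -/
noncomputable def ofUnitFun (X : LogScheme) (U : X.X.Opens) (u : Γ(X.X, U)ˣ) : X.M.sec U :=
  (X.unit U u u.isUnit).choose

theorem α_ofUnitFun (X : LogScheme) (U : X.X.Opens) (u : Γ(X.X, U)ˣ) :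
    X.α U (X.ofUnitFun U u) = u := (X.unit U u u.isUnit).choose_spec.1

theorem eq_of_α_eq (X : LogScheme) (U : X.X.Opens) {m m' : X.M.sec U}
    (h : X.α U m = X.α U m') (hu : IsUnit (X.α U m')) : m = m' :=
  (X.unit U _ hu).unique h rfl

/-- The embedding `𝒪_X^× → M_X`. -/
noncomputable def ofUnit (X : LogScheme) (U : X.X.Opens) : Γ(X.X, U)ˣ →* X.M.sec U where
  toFun u := X.ofUnitFun U u
  map_one' := X.eq_of_α_eq U (by rw [α_ofUnitFun, map_one, Units.val_one]) (by rw [map_one]; exact isUnit_one)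
  map_mul' u v := X.eq_of_α_eq U (by rw [α_ofUnitFun, map_mul, α_ofUnitFun, α_ofUnitFun, Units.val_mul])
    (by rw [map_mul, α_ofUnitFun, α_ofUnitFun]; exact (u * v).isUnit)

@[simp] theorem α_ofUnit (X : LogScheme) (U : X.X.Opens) (u : Γ(X.X, U)ˣ) :
    X.α U (X.ofUnit U u) = u := α_ofUnitFun X U u

end LogScheme

end Pool.LogT
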